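import Pool.Agent.H221R3.MD.StmtsP

/-! Project MD (helper221), TaskP2, by helper913. -/

set_option autoImplicit false

namespace Pool.Agent.H913R3.MD

open Pool.Agent.H221R3.MD

/-- the case `0 ≤ r` of `TaskP2` -/
theorem taskP2_nonneg (r C : ℝ) (hC1 : -1 ≤ C) (hC2 : C ≤ 1) (hr0 : 0 ≤ r) (hr6 : r ≤ 6)
    (hD : DP r C ≤ 1 / 1000) (h3 : 3 ≤ r → (r - 3) ^ 2 ≤ 8 * (1 + C)) :
    r ^ 2 + (31 / 10) * r * C ≤ 29 / 50 := by
  by_contra hcon
  push Not at hcon
  unfold DP at hD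
  rcases le_total 0 C with hC | hC
  · have h1 : 0 ≤ r * C := mul_nonneg hr0 hC
    have h2 : 0 ≤ r ^ 4 + 12 * r ^ 3 * C + 4 * r ^ 2 * C ^ 2 := by positivity
    nlinarith [sq_nonneg (C - 928 / 1000 * r)]
  · obtain ⟨c, rfl⟩ : ∃ c, C = -c := ⟨-C, by ring⟩
    have hc0 : 0 ≤ c := by linarith
    have hc1 : c ≤ 1 := by linarith
    rcases le_total (r ^ 2) (106 / 10) with hR | hR
    · set R := r ^ 2 with hRdef
      set t := r * c with htdef
      have ht0 : 0 ≤ t := mul_nonneg hr0 hc0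
      have htR : (31 / 10) * t < R - 29 / 50 := by
        have : r ^ 2 + 31 / 10 * r * (-c) = R - 31 / 10 * t := by rw [hRdef, htdef]; ring
        linarith
      have hRm : 29 / 50 < R := by nlinarith
      have hDR : R * (r ^ 4 + 12 * r ^ 3 * (-c) + 4 * r ^ 2 * (-c) ^ 2 + 44 * r ^ 2
          + 64 * r * (-c) - 16 + 16 * (-c) ^ 2) =
          R ^ 3 - 12 * R ^ 2 * t + 4 * R * t ^ 2 + 44 * R ^ 2 - 64 * R * t - 16 * R
            + 16 * t ^ 2 := by
        rw [hRdef, htdef]; ring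
      have hle : R ^ 3 - 12 * R ^ 2 * t + 4 * R * t ^ 2 + 44 * R ^ 2 - 64 * R * t - 16 * R
            + 16 * t ^ 2 ≤ R / 1000 := by
        rw [← hDR]
        nlinarith
      set t0 := (R - 29 / 50) / (31 / 10) with ht0def
      have htt : t ≤ t0 := by
        rw [ht0def, le_div_iff₀ (by norm_num)]; linarith
      have ht0R : t0 * (31 / 10) = R - 29 / 50 := by
        rw [ht0def]; field_simp
      have hfac : (R ^ 3 - 12 * R ^ 2 * t + 4 * R * t ^ 2 + 44 * R ^ 2 - 64 * R * t - 16 * R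
            + 16 * t ^ 2) - (R ^ 3 - 12 * R ^ 2 * t0 + 4 * R * t0 ^ 2 + 44 * R ^ 2
            - 64 * R * t0 - 16 * R + 16 * t0 ^ 2) =
            (t0 - t) * (12 * R ^ 2 + 64 * R - (4 * R + 16) * (t + t0)) := by ring
      have hneg : 0 ≤ 12 * R ^ 2 + 64 * R - (4 * R + 16) * (t + t0) := by
        have : t + t0 ≤ 2 * R := by linarith
        nlinarith
      have hmon := mul_nonneg (sub_nonneg.2 htt) hneg
      have hcub : R / 1000 < R ^ 3 - 12 * R ^ 2 * t0 + 4 * R * t0 ^ 2 + 44 * R ^ 2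
            - 64 * R * t0 - 16 * R + 16 * t0 ^ 2 := by
        have h1 : 0 ≤ 106 / 10 - R := by linarith
        have h2 : 0 ≤ R - 29 / 50 := by linarith
        have he : t0 = (R - 29 / 50) * (10 / 31) := by rw [ht0def]; ring
        rw [he]
        rcases le_total R (6 / 5) with h5 | h5
        · nlinarith [mul_nonneg (sq_nonneg R) (sub_nonneg.2 h5), sq_nonneg (R - 122 / 1000)]
        · nlinarith [mul_nonneg h1 (mul_nonneg (sub_nonneg.2 h5) (sub_nonneg.2 h5)),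
            mul_nonneg h1 (sub_nonneg.2 h5)]
      linarith
    · have hr : 13 / 4 ≤ r := by nlinarith
      have h3' := h3 (by linarith)
      obtain ⟨u, rfl⟩ : ∃ u, r = 13 / 4 + u := ⟨r - 13 / 4, by ring⟩
      have hu : 0 ≤ u := by linarith
      obtain ⟨s, rfl⟩ : ∃ s, c = 1 - s := ⟨1 - c, by ring⟩
      have hs : (13 / 4 + u - 3) ^ 2 ≤ 8 * s := by linarith
      have hs0 : 0 ≤ s := by nlinarith [sq_nonneg (13 / 4 + u - 3)]
      have hfac : 0 ≤ 12 * (13 / 4 + u) ^ 3 - 8 * (13 / 4 + u) ^ 2 + 64 * (13 / 4 + u) - 32 := by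
        ring_nf
        positivity
      have hmul := mul_nonneg (sub_nonneg.2 hs) hfac
      have hs2 : 0 ≤ s ^ 2 * (4 * (13 / 4 + u) ^ 2 + 16) := by positivity
      have hpos : 0 ≤ (39 + 7 / 12) * u + (82 + 1 / 2) * u ^ 2 + 56 * u ^ 3 + 15 * u ^ 4
          + u ^ 5 := by positivity
      have hpoly : 1 / 1000 + 2 + ((39 + 7 / 12) * u + (82 + 1 / 2) * u ^ 2 + 56 * u ^ 3
          + 15 * u ^ 4 + u ^ 5) ≤ (13 / 4 + u) * (13 / 4 + u - 4) ^ 3
          + (13 / 4 + u - 3) ^ 2 / 8 * (12 * (13 / 4 + u) ^ 3 - 8 * (13 / 4 + u) ^ 2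
            + 64 * (13 / 4 + u) - 32) := by
        have h0 : 0 ≤ u ^ 2 := by positivity
        have h00 : 0 ≤ u ^ 3 := by positivity
        have h01 : 0 ≤ u ^ 4 := by positivity
        have h02 : 0 ≤ u ^ 5 := by positivity
        ring_nf
        nlinarith
      have hid : (13 / 4 + u) ^ 4 + 12 * (13 / 4 + u) ^ 3 * -(1 - s)
          + 4 * (13 / 4 + u) ^ 2 * (-(1 - s)) ^ 2 + 44 * (13 / 4 + u) ^ 2
          + 64 * (13 / 4 + u) * -(1 - s) - 16 + 16 * (-(1 - s)) ^ 2 =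
          (13 / 4 + u) * (13 / 4 + u - 4) ^ 3
          + s * (12 * (13 / 4 + u) ^ 3 - 8 * (13 / 4 + u) ^ 2 + 64 * (13 / 4 + u) - 32)
          + s ^ 2 * (4 * (13 / 4 + u) ^ 2 + 16) := by ring
      rw [hid] at hD
      nlinarith

theorem taskP2 : TaskP2 := by
  intro r C hC1 hC2 hr6 hr6' hD h3 h3'
  rcases le_total 0 r with hr | hr
  · exact taskP2_nonneg r C hC1 hC2 hr hr6' hD h3
  · have hD' : DP (-r) (-C) ≤ 1 / 1000 := by
      have : DP (-r) (-C) = DP r C := by unfold DP; ring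
      rw [this]; exact hD
    have := taskP2_nonneg (-r) (-C) (by linarith) (by linarith) (by linarith) (by linarith) hD'
      (fun h => by
        have := h3' (by linarith)
        nlinarith)
    nlinarith

end Pool.Agent.H913R3.MD
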